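import Pool.Agent.H70.Sa1

open Pool.Agent.H70.Sa in
theorem Pool.Agent.Results.MP_b29958_an.Yes.result (A : Type) [NonUnitalNormedRing A]
    [NormedSpace ℂ A] [IsScalarTower ℂ A A] [SMulCommClass ℂ A A] [CompleteSpace A]
    (J : NonUnitalSubalgebra ℂ A) (hJ : ComplIdeal (J : Set A)) (h : SemiAm A) : SemiAm J := by
  obtain ⟨-, h1, P, hP, h2, h3⟩ := hJ
  exact main (ι := J.toSubmodule.subtypeL)
    (P := hP.toContinuousLinearMap.codRestrict J.toSubmodule h2) h
    ⟨fun _ _ => rfl, fun j => Subtype.ext (h3 j j.2), fun a j => h3 _ (h1 a j j.2).1,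
      fun a j => h3 _ (h1 a j j.2).2⟩
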